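import Pool.Agent.K1H81.TT.Stm2

/-! Piece FA of the project TT: from isomorphism classes to triples. -/

set_option autoImplicit false

namespace Pool.Agent.K1H36.TT

open Finset Filter Topology Pool.Agent.K1H81.TT

lemma not_two {t : Bool} {A D : ℤ} (hA : A % 4 = 1) : ¬ (2 : ℤ) ∣ F4 t A D := by
  intro h
  have h2 : (2 : ℤ) ∣ A ^ 2 := by
    cases t
    · have h' : (2 : ℤ) ∣ A ^ 2 + 192 * D := by simpa [F4] using h
      have e : A ^ 2 = (A ^ 2 + 192 * D) - 2 * (96 * D) := by ring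
      rw [e]
      exact dvd_sub h' (dvd_mul_right _ _)
    · have h' : (2 : ℤ) ∣ A ^ 2 - 48 * D := by simpa [F4] using h
      have e : A ^ 2 = (A ^ 2 - 48 * D) + 2 * (24 * D) := by ring
      rw [e]
      exact dvd_add h' (dvd_mul_right _ _)
  have h3 : (2 : ℤ) ∣ A := Int.prime_two.dvd_of_dvd_pow h2
  omega

lemma three_iff (t : Bool) (A D : ℤ) : (3 : ℤ) ∣ F4 t A D ↔ (3 : ℤ) ∣ A := by
  constructor
  · intro h
    have h2 : (3 : ℤ) ∣ A ^ 2 := by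
      cases t
      · have h' : (3 : ℤ) ∣ A ^ 2 + 192 * D := by simpa [F4] using h
        have e : A ^ 2 = (A ^ 2 + 192 * D) - 3 * (64 * D) := by ring
        rw [e]
        exact dvd_sub h' (dvd_mul_right _ _)
      · have h' : (3 : ℤ) ∣ A ^ 2 - 48 * D := by simpa [F4] using h
        have e : A ^ 2 = (A ^ 2 - 48 * D) + 3 * (16 * D) := by ring
        rw [e]
        exact dvd_add h' (dvd_mul_right _ _)
    exact Int.prime_three.dvd_of_dvd_pow h2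
  · rintro ⟨k, rfl⟩
    cases t
    · have e : F4 false (3 * k) D = 3 * (3 * k ^ 2 + 64 * D) := by
        simp only [F4, Bool.false_eq_true, if_false]; ring
      rw [e]
      exact dvd_mul_right _ _
    · have e : F4 true (3 * k) D = 3 * (3 * k ^ 2 - 16 * D) := by
        simp only [F4, if_true]; ring
      rw [e]
      exact dvd_mul_right _ _

lemma root_six {x : ℝ} (hx : 0 ≤ x) : (x ^ ((1 : ℝ) / 6)) ^ 6 = x := by
  rw [← Real.rpow_natCast, ← Real.rpow_mul hx]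
  norm_num

lemma Yh_nonneg (b : Bool) (Z : ℕ) : 0 ≤ Yh b Z := by
  unfold Yh
  split_ifs <;> positivity

lemma Yh_six (b : Bool) (Z : ℕ) :
    Yh b Z ^ 6 = if b then 27 * (Z : ℝ) / 4 else (Z : ℝ) / 78732 := by
  unfold Yh
  split_ifs
  · exact root_six (by positivity)
  · exact root_six (by positivity)

lemma reg_iff (t : Bool) (Y : ℝ) (hY : 0 ≤ Y) (A D : ℤ) :
    Reg t Y A D ↔ ((F4 t A D).natAbs : ℝ) ^ 3 ≤ Y ^ 6 ∧ ((F6 t A D).natAbs : ℝ) ^ 2 ≤ Y ^ 6 := by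
  unfold Reg
  have h1 : ((F4 t A D).natAbs : ℝ) = |(F4 t A D : ℝ)| := by
    rw [Nat.cast_natAbs, Int.cast_abs]
  have h2 : ((F6 t A D).natAbs : ℝ) = |(F6 t A D : ℝ)| := by
    rw [Nat.cast_natAbs, Int.cast_abs]
  have e1 : Y ^ 6 = (Y ^ 2) ^ 3 := by ring
  have e2 : Y ^ 6 = (Y ^ 3) ^ 2 := by ring
  rw [h1, h2]
  have i1 : |(F4 t A D : ℝ)| ^ 3 ≤ Y ^ 6 ↔ |(F4 t A D : ℝ)| ≤ Y ^ 2 := by
    rw [e1]
    exact pow_le_pow_iff_left₀ (abs_nonneg _) (by positivity) (by norm_num)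
  have i2 : |(F6 t A D : ℝ)| ^ 2 ≤ Y ^ 6 ↔ |(F6 t A D : ℝ)| ≤ Y ^ 3 := by
    rw [e2]
    exact pow_le_pow_iff_left₀ (abs_nonneg _) (by positivity) (by norm_num)
  rw [i1, i2]

lemma height_iff (hH : S_HGT) {W : WeierstrassCurve ℤ} {t : Bool} {A D : ℤ} (hs : Semistable W)
    (ha : Adm A D) (h4 : W.c₄ = F4 t A D) (h6 : W.c₆ = F6 t A D) (Z : ℕ) :
    height W ≤ Z ↔ Reg t (Yh (decide ((3 : ℤ) ∣ A)) Z) A D := by
  have hodd : ¬ (2 : ℤ) ∣ W.c₄ := by rw [h4]; exact not_two ha.1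
  obtain ⟨hh1, hh2⟩ := hH W hs hodd
  rw [reg_iff _ _ (Yh_nonneg _ _), Yh_six]
  have hmax : ∀ c : ℝ, ((F4 t A D).natAbs : ℝ) ^ 3 ≤ c ∧ ((F6 t A D).natAbs : ℝ) ^ 2 ≤ c ↔
      ((max (W.c₄.natAbs ^ 3) (W.c₆.natAbs ^ 2) : ℕ) : ℝ) ≤ c := by
    intro c
    rw [h4, h6, Nat.cast_max, max_le_iff]
    push_cast
    rfl
  rw [hmax]
  by_cases h3 : (3 : ℤ) ∣ A
  · have h3' : (3 : ℤ) ∣ W.c₄ := by rw [h4]; exact (three_iff t A D).2 h3
    have hh := hh1 h3'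
    simp only [h3, decide_true, if_true]
    generalize max (W.c₄.natAbs ^ 3) (W.c₆.natAbs ^ 2) = m at hh ⊢
    have hh' : (27 : ℝ) * (height W : ℝ) = 4 * (m : ℝ) := by exact_mod_cast hh
    rw [le_div_iff₀ (by norm_num : (0 : ℝ) < 4)]
    constructor
    · intro h
      have : (height W : ℝ) ≤ Z := by exact_mod_cast h
      linarith
    · intro h
      have : (height W : ℝ) ≤ Z := by linarith
      exact_mod_cast this
  · have h3' : ¬ (3 : ℤ) ∣ W.c₄ := by rw [h4]; exact fun h => h3 ((three_iff t A D).1 h)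
    have hh := hh2 h3'
    simp only [h3, decide_false, Bool.false_eq_true, if_false]
    generalize max (W.c₄.natAbs ^ 3) (W.c₆.natAbs ^ 2) = m at hh ⊢
    have hh' : (height W : ℝ) = 78732 * (m : ℝ) := by exact_mod_cast hh
    rw [le_div_iff₀ (by norm_num : (0 : ℝ) < 78732)]
    constructor
    · intro h
      have : (height W : ℝ) ≤ Z := by exact_mod_cast h
      linarith
    · intro h
      have : (height W : ℝ) ≤ Z := by linarith
      exact_mod_cast this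

lemma mem_box (hB : S_BOX) {t : Bool} {Y : ℝ} {A D : ℤ} (hY : 0 ≤ Y) (h : Reg t Y A D) :
    (A, D) ∈ Bx ⌈Y⌉₊ := by
  obtain ⟨h1, h2⟩ := hB t Y A D hY h
  have hN : Y ≤ (⌈Y⌉₊ : ℝ) := Nat.le_ceil Y
  generalize ⌈Y⌉₊ = N at hN ⊢
  have h3 : |(A : ℝ)| ≤ ((2 * (N : ℤ) : ℤ) : ℝ) := by
    push_cast
    linarith
  have h4 : |(D : ℝ)| ≤ (((N : ℤ) ^ 2 : ℤ) : ℝ) := by
    push_cast
    exact h2.trans (pow_le_pow_left₀ hY hN 2)
  have h3' : |A| ≤ 2 * (N : ℤ) := by exact_mod_cast h3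
  have h4' : |D| ≤ (N : ℤ) ^ 2 := by exact_mod_cast h4
  rw [abs_le] at h3' h4'
  unfold Bx
  rw [mem_product, mem_Icc, mem_Icc]
  exact ⟨⟨h3'.1, h3'.2⟩, ⟨h4'.1, h4'.2⟩⟩

lemma mem_FS (t : Bool) (three : Prop) (Y : ℝ) (z : ℤ × ℤ) : z ∈ FS t three Y ↔
    z ∈ Bx ⌈Y⌉₊ ∧ Adm z.1 z.2 ∧ Reg t Y z.1 z.2 ∧ ((3 : ℤ) ∣ z.1 ↔ three) := by
  classical
  unfold FS
  exact Finset.mem_filter

open Classical in
/-- the triples, with the redundant information whether `3 ∣ A` -/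
noncomputable def XX (P : ℤ → Prop) (Z : ℕ) : Finset (Σ _ : Bool × Bool, ℤ × ℤ) :=
  (univ : Finset (Bool × Bool)).sigma fun p =>
    (FS p.1 (p.2 = true) (Yh p.2 Z)).filter fun z => P (w z.1 z.2)

lemma card_XX (P : ℤ → Prop) (Z : ℕ) : (XX P Z).card = II P Z := by
  classical
  unfold XX II
  rw [card_sigma, Fintype.sum_prod_type]

lemma mem_XX (P : ℤ → Prop) (Z : ℕ) (s : Σ _ : Bool × Bool, ℤ × ℤ) : s ∈ XX P Z ↔
    s.2 ∈ Bx ⌈Yh s.1.2 Z⌉₊ ∧ Adm s.2.1 s.2.2 ∧ Reg s.1.1 (Yh s.1.2 Z) s.2.1 s.2.2 ∧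
      ((3 : ℤ) ∣ s.2.1 ↔ s.1.2 = true) ∧ P (w s.2.1 s.2.2) := by
  classical
  unfold XX FS
  simp only [mem_sigma, mem_univ, true_and, mem_filter]
  tauto

/-- the map to the classes -/
def Φ (s : Σ _ : Bool × Bool, ℤ × ℤ) : ℤ × ℤ := (F4 s.1.1 s.2.1 s.2.2, F6 s.1.1 s.2.1 s.2.2)

lemma fam_eq (hP : S_PAR) (hC : S_CONV) (hW : S_WRT) (hH : S_HGT) (hB : S_BOX) (P : ℤ → Prop)
    (Z : ℕ) : Fam P Z = Φ '' (XX P Z : Set (Σ _ : Bool × Bool, ℤ × ℤ)) := by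
  ext z
  constructor
  · rintro ⟨W, hs, ht, hZ, hPw, rfl⟩
    obtain ⟨t, A, D, ha, h4, h6⟩ := hP W hs ht
    have hreg := (height_iff hH hs ha h4 h6 Z).1 hZ
    refine ⟨⟨(t, decide ((3 : ℤ) ∣ A)), (A, D)⟩, ?_, ?_⟩
    · rw [mem_coe, mem_XX]
      refine ⟨mem_box hB (Yh_nonneg _ _) hreg, ha, hreg, by simp, ?_⟩
      rw [(hW W t A D hs ha h4 h6).2] at hPw
      exact hPw
    · simp only [Φ, h4, h6]
  · rintro ⟨⟨⟨t, b⟩, ⟨A, D⟩⟩, hs, rfl⟩
    rw [mem_coe, mem_XX] at hs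
    obtain ⟨-, ha, hreg, h3, hw⟩ := hs
    simp only at ha hreg h3 hw
    obtain ⟨W, hs, ht, h4, h6⟩ := hC t A D ha
    have hb : decide ((3 : ℤ) ∣ A) = b := by
      cases b
      · simpa using h3
      · simpa using h3
    refine ⟨W, hs, ht, (height_iff hH hs ha h4 h6 Z).2 ?_, ?_, ?_⟩
    · rw [hb]; exact hreg
    · rw [(hW W t A D hs ha h4 h6).2]; exact hw
    · simp only [Φ, h4, h6]

/-- the exceptional triples -/
def Exc (s : Σ _ : Bool × Bool, ℤ × ℤ) : Prop :=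
  (s.1.1 = true ∧ IsSquare (EE s.2.1 s.2.2)) ∨ (s.1.1 = false ∧ IsSquare s.2.2)

lemma inj_Φ (hM : S_MUL) (P : ℤ → Prop) (Z : ℕ) :
    Set.InjOn Φ {s | s ∈ XX P Z ∧ ¬ Exc s} := by
  rintro ⟨⟨t, b⟩, ⟨A, D⟩⟩ ⟨hs, he⟩ ⟨⟨t', b'⟩, ⟨A', D'⟩⟩ ⟨hs', -⟩ h
  rw [mem_XX] at hs hs'
  simp only at hs hs'
  simp only [Φ, Prod.mk.injEq] at h
  simp only [Exc] at he
  rcases hM t t' A D A' D' hs.2.1 hs'.2.1 h.1 h.2 with ⟨h1, h2, h3⟩ | h1 | h1
  · subst h1; subst h2; subst h3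
    have hb : b = b' := by
      have e1 := hs.2.2.2.1
      have e2 := hs'.2.2.2.1
      cases b <;> cases b' <;> simp_all
    subst hb
    rfl
  · exact absurd (Or.inl h1) he
  · exact absurd (Or.inr h1) he

lemma Yh_le (b : Bool) (Z : ℕ) : Yh b Z ≤ 2 * (Z : ℝ) ^ ((1 : ℝ) / 6) := by
  have hz : (0 : ℝ) ≤ (Z : ℝ) ^ ((1 : ℝ) / 6) := by positivity
  have h1 : Yh b Z ^ 6 ≤ (2 * (Z : ℝ) ^ ((1 : ℝ) / 6)) ^ 6 := by
    rw [Yh_six, mul_pow, root_six (Nat.cast_nonneg Z)]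
    have : (0 : ℝ) ≤ Z := Nat.cast_nonneg Z
    split_ifs <;> linarith
  exact le_of_pow_le_pow_left₀ (by norm_num) (by positivity) h1

lemma card_sq (Y : ℝ) (hY : 0 ≤ Y) (S : Finset (ℤ × ℤ)) (f : ℤ → ℤ → ℤ)
    (hf : ∀ A D D', f A D = f A D' → D = D') (hS : ∀ z ∈ S, |(z.1 : ℝ)| ≤ 2 * Y ∧
      IsSquare (f z.1 z.2) ∧ ((f z.1 z.2 : ℤ) : ℝ) ≤ (9 * Y) ^ 2) :
    (S.card : ℝ) ≤ 36 * Y ^ 2 + 13 * Y + 1 := by
  classical
  have h1 : S.card ≤ ((Icc (-⌊2 * Y⌋) ⌊2 * Y⌋) ×ˢ (Icc 0 ⌊9 * Y⌋)).card := by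
    refine card_le_card_of_injOn (fun z => (z.1, Int.sqrt (f z.1 z.2))) ?_ ?_
    · intro z hz
      obtain ⟨h1, ⟨r, hr⟩, h3⟩ := hS z hz
      have hr' : f z.1 z.2 = |r| * |r| := by rw [hr, abs_mul_abs_self]
      have hsq : Int.sqrt (f z.1 z.2) = |r| := by
        rw [hr, Int.sqrt_eq, Int.natCast_natAbs]
      rw [mem_coe, mem_product, mem_Icc, mem_Icc]
      simp only
      rw [hsq]
      rw [abs_le] at h1
      refine ⟨⟨?_, ?_⟩, abs_nonneg r, ?_⟩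
      · have : ((-z.1 : ℤ) : ℝ) ≤ 2 * Y := by push_cast; linarith [h1.1]
        have := Int.le_floor.2 this
        linarith
      · exact Int.le_floor.2 h1.2
      · rw [Int.le_floor]
        have h4 : ((|r| : ℤ) : ℝ) ^ 2 ≤ (9 * Y) ^ 2 := by
          have : ((f z.1 z.2 : ℤ) : ℝ) = ((|r| : ℤ) : ℝ) ^ 2 := by
            rw [hr']; push_cast; ring
          rw [← this]
          exact h3
        exact le_of_pow_le_pow_left₀ (by norm_num) (by positivity) h4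
    · rintro ⟨A, D⟩ hz ⟨A', D'⟩ hz' h
      simp only [Prod.mk.injEq] at h
      obtain ⟨h1, h2⟩ := h
      subst h1
      obtain ⟨-, ⟨r, hr⟩, -⟩ := hS _ hz
      obtain ⟨-, ⟨r', hr'⟩, -⟩ := hS _ hz'
      simp only at hr hr'
      rw [hr, hr', Int.sqrt_eq, Int.sqrt_eq] at h2
      have h3 : r.natAbs = r'.natAbs := by exact_mod_cast h2
      have h4 : f A D = f A D' := by
        rw [hr, hr', ← Int.natAbs_mul_self, ← Int.natAbs_mul_self (a := r'), h3]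
      rw [hf A D D' h4]
  have h2 : (((Icc (-⌊2 * Y⌋) ⌊2 * Y⌋) ×ˢ (Icc (0 : ℤ) ⌊9 * Y⌋)).card : ℝ)
      ≤ (4 * Y + 1) * (9 * Y + 1) := by
    rw [card_product, Int.card_Icc, Int.card_Icc]
    push_cast
    have f1 : (0 : ℤ) ≤ ⌊2 * Y⌋ := Int.floor_nonneg.2 (by positivity)
    have f2 : (0 : ℤ) ≤ ⌊9 * Y⌋ := Int.floor_nonneg.2 (by positivity)
    have g1 : (((⌊2 * Y⌋ + 1 - -⌊2 * Y⌋).toNat : ℕ) : ℝ) ≤ 4 * Y + 1 := by
      have e : (((⌊2 * Y⌋ + 1 - -⌊2 * Y⌋).toNat : ℕ) : ℤ) = ⌊2 * Y⌋ + 1 - -⌊2 * Y⌋ :=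
        Int.toNat_of_nonneg (by omega)
      have e' : (((⌊2 * Y⌋ + 1 - -⌊2 * Y⌋).toNat : ℕ) : ℝ) = ((⌊2 * Y⌋ + 1 - -⌊2 * Y⌋ : ℤ) : ℝ) := by
        rw [← e]; norm_cast
      rw [e']
      push_cast
      linarith [Int.floor_le (2 * Y)]
    have g2 : (((⌊9 * Y⌋ + 1 - 0).toNat : ℕ) : ℝ) ≤ 9 * Y + 1 := by
      have e : (((⌊9 * Y⌋ + 1 - 0).toNat : ℕ) : ℤ) = ⌊9 * Y⌋ + 1 - 0 :=
        Int.toNat_of_nonneg (by omega)
      have e' : (((⌊9 * Y⌋ + 1 - 0).toNat : ℕ) : ℝ) = ((⌊9 * Y⌋ + 1 - 0 : ℤ) : ℝ) := by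
        rw [← e]; norm_cast
      rw [e']
      push_cast
      linarith [Int.floor_le (9 * Y)]
    exact mul_le_mul g1 g2 (by positivity) (by positivity)
  have h3 : (S.card : ℝ) ≤ (((Icc (-⌊2 * Y⌋) ⌊2 * Y⌋) ×ˢ (Icc (0 : ℤ) ⌊9 * Y⌋)).card : ℝ) := by
    exact_mod_cast h1
  calc (S.card : ℝ) ≤ (4 * Y + 1) * (9 * Y + 1) := h3.trans h2
    _ = 36 * Y ^ 2 + 13 * Y + 1 := by ring

open Classical in
lemma card_exc (hB : S_BOX) (P : ℤ → Prop) (Z : ℕ) (hZ : 1 ≤ Z) :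
    (((XX P Z).filter Exc).card : ℝ) ≤ 684 * (Z : ℝ) ^ ((1 : ℝ) / 3) := by
  have hsub : (XX P Z).filter Exc ⊆ (univ : Finset (Bool × Bool)).sigma fun p =>
      ((FS p.1 (p.2 = true) (Yh p.2 Z)).filter fun z => Exc ⟨p, z⟩) := by
    rintro ⟨p, z⟩ h
    rw [mem_filter] at h
    obtain ⟨h1, h2⟩ := h
    unfold XX at h1
    rw [mem_sigma, mem_filter] at h1
    rw [mem_sigma, mem_filter]
    exact ⟨mem_univ _, h1.2.1, h2⟩
  have h1 : (((XX P Z).filter Exc).card : ℝ) ≤ ∑ p : Bool × Bool,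
      (((FS p.1 (p.2 = true) (Yh p.2 Z)).filter fun z => Exc ⟨p, z⟩).card : ℝ) := by
    have := card_le_card hsub
    rw [card_sigma] at this
    exact_mod_cast this
  set u : ℝ := (Z : ℝ) ^ ((1 : ℝ) / 6) with hu
  have hu1 : 1 ≤ u := Real.one_le_rpow (by exact_mod_cast hZ) (by norm_num)
  have hu2 : u ^ 2 = (Z : ℝ) ^ ((1 : ℝ) / 3) := by
    rw [hu, ← Real.rpow_natCast, ← Real.rpow_mul (Nat.cast_nonneg Z)]
    norm_num
  have h2 : ∀ p : Bool × Bool,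
      (((FS p.1 (p.2 = true) (Yh p.2 Z)).filter fun z => Exc ⟨p, z⟩).card : ℝ) ≤ 171 * u ^ 2 := by
    rintro ⟨t, b⟩
    simp only
    have hY := Yh_nonneg b Z
    have hYu := Yh_le b Z
    rw [← hu] at hYu
    have hmem : ∀ z ∈ ((FS t (b = true) (Yh b Z)).filter fun z => Exc ⟨(t, b), z⟩),
        |(z.1 : ℝ)| ≤ 2 * Yh b Z ∧ |(z.2 : ℝ)| ≤ Yh b Z ^ 2 ∧ Exc ⟨(t, b), z⟩ := by
      intro z hz
      rw [mem_filter] at hz
      obtain ⟨h1, h2⟩ := hz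
      rw [mem_FS] at h1
      obtain ⟨h3, h4⟩ := hB t _ z.1 z.2 hY h1.2.2.1
      exact ⟨h3, h4, h2⟩
    have hcard : (((FS t (b = true) (Yh b Z)).filter fun z => Exc ⟨(t, b), z⟩).card : ℝ) ≤
        36 * Yh b Z ^ 2 + 13 * Yh b Z + 1 := by
      cases t
      · refine card_sq (Yh b Z) hY _ (fun _ D => D) (fun _ _ _ h => h) ?_
        intro z hz
        obtain ⟨h3, h4, h5⟩ := hmem z hz
        refine ⟨h3, ?_, ?_⟩
        · rcases h5 with h5 | h5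
          · exact absurd h5.1 (by simp)
          · exact h5.2
        · have := le_abs_self (z.2 : ℝ)
          nlinarith [sq_nonneg (Yh b Z)]
      · refine card_sq (Yh b Z) hY _ (fun A D => EE A D) ?_ ?_
        · intro A D D' h
          simp only [EE] at h
          omega
        · intro z hz
          obtain ⟨h3, h4, h5⟩ := hmem z hz
          refine ⟨h3, ?_, ?_⟩
          · rcases h5 with h5 | h5
            · exact h5.2
            · exact absurd h5.1 (by simp)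
          · have e1 : ((EE z.1 z.2 : ℤ) : ℝ) = (z.1 : ℝ) ^ 2 - 64 * (z.2 : ℝ) := by
              unfold EE; push_cast; ring
            have e2 : (z.1 : ℝ) ^ 2 ≤ (2 * Yh b Z) ^ 2 := by
              rw [← sq_abs]
              exact pow_le_pow_left₀ (abs_nonneg _) h3 2
            have e3 := neg_abs_le (z.2 : ℝ)
            rw [e1]
            nlinarith [sq_nonneg (Yh b Z)]
    have hY2 : Yh b Z ^ 2 ≤ 4 * u ^ 2 := by
      calc Yh b Z ^ 2 ≤ (2 * u) ^ 2 := pow_le_pow_left₀ hY hYu 2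
        _ = 4 * u ^ 2 := by ring
    have hu3 : u ≤ u ^ 2 := by nlinarith
    nlinarith
  calc (((XX P Z).filter Exc).card : ℝ) ≤ ∑ _p : Bool × Bool, 171 * u ^ 2 :=
        h1.trans (sum_le_sum fun p _ => h2 p)
    _ = 684 * (Z : ℝ) ^ ((1 : ℝ) / 3) := by
        rw [sum_const, card_univ, hu2]
        have : Fintype.card (Bool × Bool) = 4 := by decide
        rw [this, nsmul_eq_mul]
        push_cast
        ring

theorem t_FA (hP : S_PAR) (hC : S_CONV) (hW : S_WRT) (hH : S_HGT) (hM : S_MUL) (hB : S_BOX) :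
    S_FA := by
  classical
  refine ⟨684, by norm_num, fun Z hZ P => ?_⟩
  have he := fam_eq hP hC hW hH hB P Z
  have hfin : (Fam P Z).Finite := by
    rw [he]
    exact (XX P Z).finite_toSet.image _
  refine ⟨hfin, ?_, ?_⟩
  · rw [he, ← card_XX, ← Set.ncard_coe_finset]
    exact Set.ncard_image_le (XX P Z).finite_toSet
  · have h1 : (XX P Z).card = ((XX P Z).filter fun s => ¬ Exc s).card +
        ((XX P Z).filter Exc).card := by
      rw [add_comm]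
      exact (card_filter_add_card_filter_not (s := XX P Z) Exc).symm
    have h2 : ((XX P Z).filter fun s => ¬ Exc s).card ≤ (Fam P Z).ncard := by
      have hset : (((XX P Z).filter fun s => ¬ Exc s : Finset _) : Set (Σ _ : Bool × Bool, ℤ × ℤ))
          = {s | s ∈ XX P Z ∧ ¬ Exc s} := by
        ext s; simp
      rw [← Set.ncard_coe_finset, hset, ← (inj_Φ hM P Z).ncard_image]
      refine Set.ncard_le_ncard ?_ hfin
      rw [he]
      refine Set.image_mono ?_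
      rintro s ⟨hs, -⟩
      exact hs
    have h3 := card_exc hB P Z hZ
    rw [← card_XX, h1]
    push_cast
    have h2' : ((((XX P Z).filter fun s => ¬ Exc s).card : ℕ) : ℝ) ≤ ((Fam P Z).ncard : ℝ) := by
      exact_mod_cast h2
    linarith

end Pool.Agent.K1H36.TT
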